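import Mathlib

set_option autoImplicit false

/-!
The free group of rank `k + 2` is a subgroup of index `k + 1` of the free group of rank two,
and likewise after taking products with the integers.
-/

namespace Pool.Agent.Y469.CB

open Function

/-- The first generator of the free group of rank two. -/
def a : FreeGroup (Fin 2) := FreeGroup.of 0

/-- The second generator of the free group of rank two. -/
def b : FreeGroup (Fin 2) := FreeGroup.of 1

/-- The homomorphism which maps the first generator to `a ^ (k + 1)` and the others to the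
conjugates `a ^ (-i) b a ^ i`, for `i` from `0` to `k`. -/
def phi (k : ℕ) : FreeGroup (Fin (k + 2)) →* FreeGroup (Fin 2) :=
  FreeGroup.lift (Fin.cases (a ^ (k + 1)) fun i : Fin (k + 1) => (a ^ (i : ℕ))⁻¹ * b * a ^ (i : ℕ))

theorem phi_zero (k : ℕ) : phi k (FreeGroup.of 0) = a ^ (k + 1) := by
  simp [phi]

theorem phi_succ (k : ℕ) (i : Fin (k + 1)) :
    phi k (FreeGroup.of i.succ) = (a ^ (i : ℕ))⁻¹ * b * a ^ (i : ℕ) := by
  simp [phi]

/-- The permutation by which `a` acts. -/
def permA (k : ℕ) : Equiv.Perm (Fin (k + 1) × FreeGroup (Fin (k + 2))) :=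
  Equiv.prodShear (Equiv.addRight 1) fun i =>
    if i = Fin.last k then Equiv.mulLeft (FreeGroup.of 0) else Equiv.refl _

/-- The permutation by which `b` acts. -/
def permB (k : ℕ) : Equiv.Perm (Fin (k + 1) × FreeGroup (Fin (k + 2))) :=
  Equiv.prodShear (Equiv.refl _) fun i => Equiv.mulLeft (FreeGroup.of i.succ)

/-- The induced action. -/
def rho (k : ℕ) : FreeGroup (Fin 2) →* Equiv.Perm (Fin (k + 1) × FreeGroup (Fin (k + 2))) :=
  FreeGroup.lift ![permA k, permB k]

theorem rho_a (k : ℕ) : rho k a = permA k := by simp [rho, a]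

theorem rho_b (k : ℕ) : rho k b = permB k := by simp [rho, b]

theorem permA_pow (k : ℕ) (w : FreeGroup (Fin (k + 2))) (i : ℕ) (hi : i < k + 1) :
    ((permA k) ^ i) (0, w) = (⟨i, hi⟩, w) := by
  induction i with
  | zero => rfl
  | succ i ih =>
    have hi' : i < k + 1 := by omega
    rw [pow_succ', Equiv.Perm.mul_apply, ih hi']
    have hne : (⟨i, hi'⟩ : Fin (k + 1)) ≠ Fin.last k := by
      intro h
      have := congrArg Fin.val h
      simp at this
      omega
    have h1 : (⟨i, hi'⟩ : Fin (k + 1)) + 1 = ⟨i + 1, hi⟩ := by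
      apply Fin.ext
      rw [Fin.val_add_one_of_lt (Fin.lt_last_iff_ne_last.2 hne)]
    simp [permA, hne, h1]

theorem permA_pow_last (k : ℕ) (w : FreeGroup (Fin (k + 2))) :
    ((permA k) ^ (k + 1)) (0, w) = (0, FreeGroup.of 0 * w) := by
  rw [pow_succ', Equiv.Perm.mul_apply, permA_pow k w k (by omega)]
  have h0 : (⟨k, by omega⟩ : Fin (k + 1)) = Fin.last k := rfl
  rw [h0]
  simp [permA]

theorem rho_phi (k : ℕ) (u : FreeGroup (Fin (k + 2))) :
    ∀ w : FreeGroup (Fin (k + 2)), rho k (phi k u) (0, w) = (0, u * w) := by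
  induction u using FreeGroup.induction_on with
  | C1 => intro w; simp
  | of x =>
    intro w
    refine Fin.cases ?_ (fun i => ?_) x
    · rw [phi_zero, map_pow, rho_a, permA_pow_last]
    · rw [phi_succ, map_mul, map_mul, map_inv, map_pow, rho_a, rho_b, Equiv.Perm.mul_apply,
        Equiv.Perm.mul_apply, permA_pow k w i i.2, Equiv.Perm.inv_eq_iff_eq]
      rw [permA_pow k _ i i.2]
      simp [permB]
  | inv_of x ih =>
    intro w
    rw [map_inv, map_inv, Equiv.Perm.inv_eq_iff_eq, ih]
    simp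
  | mul x y hx hy =>
    intro w
    rw [map_mul, map_mul, Equiv.Perm.mul_apply, hy, hx, mul_assoc]

theorem phi_injective (k : ℕ) : Injective (phi k) := by
  rw [injective_iff_map_eq_one]
  intro u hu
  have h := rho_phi k u 1
  rw [hu, map_one] at h
  have h2 := congrArg Prod.snd h
  simpa using h2.symm

/-- Every element is of the form `a ^ i * phi u` with `i ≤ k`. -/
theorem exists_rep (k : ℕ) (g : FreeGroup (Fin 2)) :
    ∃ (i : Fin (k + 1)) (u : FreeGroup (Fin (k + 2))), g = a ^ (i : ℕ) * phi k u := by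
  have key : ∀ (i : Fin (k + 1)) (u : FreeGroup (Fin (k + 2))),
      ∃ (j : Fin (k + 1)) (v : FreeGroup (Fin (k + 2))),
        g * (a ^ (i : ℕ) * phi k u) = a ^ (j : ℕ) * phi k v := by
    induction g using FreeGroup.induction_on with
    | C1 => intro i u; exact ⟨i, u, one_mul _⟩
    | of x =>
      intro i u
      fin_cases x
      · show ∃ (j : Fin (k + 1)) (v : FreeGroup (Fin (k + 2))),
          a * (a ^ (i : ℕ) * phi k u) = a ^ (j : ℕ) * phi k v
        by_cases hi : (i : ℕ) + 1 < k + 1
        · refine ⟨⟨i + 1, hi⟩, u, ?_⟩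
          show _ = a ^ ((i : ℕ) + 1) * phi k u
          rw [pow_succ', mul_assoc]
        · refine ⟨0, FreeGroup.of 0 * u, ?_⟩
          have hik : (i : ℕ) = k := by have := i.2; omega
          rw [map_mul, phi_zero, hik, ← mul_assoc, ← pow_succ']
          simp
      · show ∃ (j : Fin (k + 1)) (v : FreeGroup (Fin (k + 2))),
          b * (a ^ (i : ℕ) * phi k u) = a ^ (j : ℕ) * phi k v
        refine ⟨i, FreeGroup.of i.succ * u, ?_⟩
        rw [map_mul, phi_succ]
        group
    | inv_of x _ =>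
      intro i u
      fin_cases x
      · show ∃ (j : Fin (k + 1)) (v : FreeGroup (Fin (k + 2))),
          a⁻¹ * (a ^ (i : ℕ) * phi k u) = a ^ (j : ℕ) * phi k v
        rcases Nat.eq_zero_or_pos (i : ℕ) with hi | hi
        · refine ⟨Fin.last k, (FreeGroup.of 0)⁻¹ * u, ?_⟩
          rw [map_mul, map_inv, phi_zero, hi, Fin.val_last, pow_succ]
          group
        · refine ⟨⟨(i : ℕ) - 1, by have := i.2; omega⟩, u, ?_⟩
          show _ = a ^ ((i : ℕ) - 1) * phi k u
          obtain ⟨j, hj⟩ : ∃ j, (i : ℕ) = j + 1 := ⟨(i : ℕ) - 1, by omega⟩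
          rw [hj, Nat.add_sub_cancel, pow_succ']
          group
      · show ∃ (j : Fin (k + 1)) (v : FreeGroup (Fin (k + 2))),
          b⁻¹ * (a ^ (i : ℕ) * phi k u) = a ^ (j : ℕ) * phi k v
        refine ⟨i, (FreeGroup.of i.succ)⁻¹ * u, ?_⟩
        rw [map_mul, map_inv, phi_succ]
        group
    | mul x y hx hy =>
      intro i u
      obtain ⟨j, v, h1⟩ := hy i u
      obtain ⟨l, w, h2⟩ := hx j v
      exact ⟨l, w, by rw [mul_assoc, h1, h2]⟩
  obtain ⟨j, v, h⟩ := key 0 1
  exact ⟨j, v, by simpa using h⟩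

/-- The product of `phi` with the identity of the integers. -/
def psi (k : ℕ) : FreeGroup (Fin (k + 2)) × Multiplicative ℤ →*
    FreeGroup (Fin 2) × Multiplicative ℤ :=
  (phi k).prodMap (MonoidHom.id _)

theorem psi_injective (k : ℕ) : Injective (psi k) := by
  intro x y h
  have h1 := congrArg Prod.fst h
  have h2 := congrArg Prod.snd h
  exact Prod.ext (phi_injective k h1) h2

theorem psi_finiteIndex (k : ℕ) : (psi k).range.FiniteIndex := by
  have hsurj : Surjective (fun i : Fin (k + 1) =>
      (QuotientGroup.mk ((a ^ (i : ℕ), 1) : FreeGroup (Fin 2) × Multiplicative ℤ) :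
        (FreeGroup (Fin 2) × Multiplicative ℤ) ⧸ (psi k).range)) := by
    intro q
    obtain ⟨⟨g, t⟩, rfl⟩ := QuotientGroup.mk_surjective q
    obtain ⟨i, u, hu⟩ := exists_rep k g
    refine ⟨i, ?_⟩
    apply QuotientGroup.eq.2
    refine ⟨(u, t), ?_⟩
    rw [hu]
    refine Prod.ext ?_ ?_
    · show phi k u = (a ^ (i : ℕ))⁻¹ * (a ^ (i : ℕ) * phi k u)
      group
    · show t = 1⁻¹ * t
      simp
  have : Finite ((FreeGroup (Fin 2) × Multiplicative ℤ) ⧸ (psi k).range) :=
    Finite.of_surjective _ hsurj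
  exact Subgroup.finiteIndex_of_finite_quotient

end Pool.Agent.Y469.CB
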