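import Pool.Agent.Helper376.CL.Defs
import Pool.Agent.Helper376.CL.Shape
import Pool.Agent.Helper376.CL.Lift

set_option autoImplicit false

/-!
Maps with connected fibres over whose fibres all circle valued functions lift to the line are closed
under composition and base change (a form of the Vietoris–Begle theorem in degree one).
-/

namespace Pool.Agent.Y469.CB

open Pool.Agent.Helper376.CL
open Set Topology

/-- Connected spaces all of whose circle valued functions lift to the line. -/
def Ac (C : Type) [TopologicalSpace C] : Prop :=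
  ConnectedSpace C ∧ ∀ u : C → ℂ, Continuous u → (∀ c, ‖u c‖ = 1) →
    ∃ θ : C → ℝ, Continuous θ ∧ ∀ c, u c = Complex.exp (Complex.I * θ c)

/-- Continuous maps with such fibres. -/
def Good {W Z : Type} [TopologicalSpace W] [TopologicalSpace Z] (f : W → Z) : Prop :=
  Continuous f ∧ ∀ z : Z, Ac ↥(f ⁻¹' {z})

theorem Ac.of_homeo {A B : Type} [TopologicalSpace A] [TopologicalSpace B] (h : Ac A)
    (e : A ≃ₜ B) : Ac B := by
  obtain ⟨h1, h2⟩ := h
  refine ⟨e.surjective.connectedSpace e.continuous, fun u hu hu1 => ?_⟩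
  obtain ⟨θ, h3, h4⟩ := h2 (fun x => u (e x)) (hu.comp e.continuous) fun x => hu1 _
  exact ⟨fun y => θ (e.symm y), h3.comp e.symm.continuous, fun y => by
    have := h4 (e.symm y)
    simpa using this⟩

theorem Good.of_cellLike {W Z : Type} [TopologicalSpace W] [TopologicalSpace Z] {f : W → Z}
    (h : IsCellLike f) : Good f :=
  ⟨h.1, fun z => ⟨(h.2 z).connectedSpace, fun u hu hu1 => (h.2 z).lift u hu hu1⟩⟩

/-- Two lifts of the same function differ by a constant on a connected set. -/
theorem lifts_differ {Γ : Type} [TopologicalSpace Γ] {K : Set Γ} (hK : IsPreconnected K)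
    {a b : Γ → ℝ} (ha : ContinuousOn a K) (hb : ContinuousOn b K)
    (hab : ∀ x ∈ K, Complex.exp (Complex.I * a x) = Complex.exp (Complex.I * b x))
    {x y : Γ} (hx : x ∈ K) (hy : y ∈ K) : a x - a y = b x - b y := by
  have key : ∀ x ∈ K, ∃ n : ℤ, (a x - b x) / (2 * Real.pi) = n := by
    intro x hx
    have e := hab x hx
    rw [Complex.exp_eq_exp_iff_exists_int] at e
    obtain ⟨n, hn⟩ := e
    refine ⟨n, ?_⟩
    have h3 : ((a x - b x : ℝ) : ℂ) = ((n * (2 * Real.pi) : ℝ) : ℂ) := by
      have : Complex.I * ((a x - b x : ℝ) : ℂ) = Complex.I * ((n * (2 * Real.pi) : ℝ) : ℂ) := by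
        push_cast
        linear_combination hn
      exact mul_left_cancel₀ Complex.I_ne_zero this
    have h4 : a x - b x = n * (2 * Real.pi) := by exact_mod_cast h3
    rw [h4]
    have := Real.pi_pos
    field_simp
  set f : Γ → ℝ := fun x => (a x - b x) / (2 * Real.pi) with hf
  have hfc : ContinuousOn f K := (ha.sub hb).div_const _
  have hconst : ∀ x ∈ K, ∀ y ∈ K, ¬ f x < f y := by
    intro x hx y hy hlt
    obtain ⟨m, hm⟩ := key x hx
    obtain ⟨n, hn⟩ := key y hy
    have hm' : f x = m := hm
    have hn' : f y = n := hn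
    rw [hm', hn'] at hlt
    have hmn : m < n := by exact_mod_cast hlt
    have hmn1 : ((m : ℝ) + 1) ≤ n := by exact_mod_cast hmn
    have hmem : (m : ℝ) + 1 / 2 ∈ Icc (f x) (f y) := by
      rw [hm', hn']
      constructor <;> linarith
    obtain ⟨w, hw, hwe⟩ := hK.intermediate_value hx hy hfc hmem
    obtain ⟨k, hk⟩ := key w hw
    have hk' : f w = k := hk
    rw [hk'] at hwe
    have h1 : (2 * k : ℝ) = 2 * m + 1 := by linarith
    have h2 : (2 * k : ℤ) = 2 * m + 1 := by exact_mod_cast h1
    omega
  have e : f x = f y := le_antisymm (not_lt.1 (hconst y hy x hx)) (not_lt.1 (hconst x hx y hy))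
  have e' : (a x - b x) / (2 * Real.pi) = (a y - b y) / (2 * Real.pi) := e
  have hpi : (2 * Real.pi) ≠ 0 := by positivity
  rw [div_left_inj' hpi] at e'
  linarith

theorem lift_local' {Γ C : Type} [TopologicalSpace Γ] [CompactSpace Γ] [T2Space Γ]
    [TopologicalSpace C] [T2Space C]
    (p : Γ → C) (hp : Continuous p)
    (u : Γ → ℂ) (hu : Continuous u) (hu1 : ∀ x, ‖u x‖ = 1) (s : C)
    (hlift : ∃ θ : ↥(p ⁻¹' {s}) → ℝ, Continuous θ ∧
      ∀ x : ↥(p ⁻¹' {s}), u x = Complex.exp (Complex.I * θ x)) :
    ∃ N : Set C, IsOpen N ∧ s ∈ N ∧ LiftOn u (p ⁻¹' N) := by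
  obtain ⟨θ, hθ, hθu⟩ := hlift
  have hK : IsClosed (p ⁻¹' {s}) := isClosed_singleton.preimage hp
  obtain ⟨g, hg⟩ := ContinuousMap.exists_restrict_eq hK (⟨θ, hθ⟩ : C(↥(p ⁻¹' {s}), ℝ))
  have hgK : ∀ x (hx : x ∈ p ⁻¹' {s}), g x = θ ⟨x, hx⟩ := by
    intro x hx
    have := congrArg (fun k : C(↥(p ⁻¹' {s}), ℝ) => k ⟨x, hx⟩) hg
    exact this
  set v : Γ → ℂ := fun x => u x * Complex.exp (-(Complex.I * g x)) with hv
  have hvc : Continuous v := by
    apply hu.mul
    apply Complex.continuous_exp.comp
    exact (continuous_const.mul (Complex.continuous_ofReal.comp g.continuous)).neg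
  have hv1 : ∀ x ∈ p ⁻¹' {s}, v x = 1 := by
    intro x hx
    rw [hv]
    simp only
    rw [hθu ⟨x, hx⟩, ← hgK x hx, ← Complex.exp_add, add_neg_cancel, Complex.exp_zero]
  have hvn : ∀ x, ‖v x‖ = 1 := by
    intro x
    rw [hv]
    simp only
    rw [norm_mul, hu1, one_mul, Complex.norm_exp]
    simp
  set W : Set Γ := v ⁻¹' Complex.slitPlane with hW
  have hWo : IsOpen W := Complex.isOpen_slitPlane.preimage hvc
  have hKW : p ⁻¹' {s} ⊆ W := by
    intro x hx
    change v x ∈ Complex.slitPlane
    rw [hv1 x hx]
    exact Complex.one_mem_slitPlane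
  refine ⟨(p '' Wᶜ)ᶜ, (hp.isClosedMap _ hWo.isClosed_compl).isOpen_compl, ?_, ?_⟩
  · rintro ⟨x, hx, hxs⟩
    exact hx (hKW hxs)
  · refine ⟨fun x => g x + Complex.arg (v x), ?_, ?_⟩
    · apply g.continuous.continuousOn.add
      intro x hx
      have hxW : x ∈ W := by
        by_contra hc
        exact hx ⟨x, hc, rfl⟩
      exact ((Complex.continuousAt_arg hxW).comp hvc.continuousAt).continuousWithinAt
    · intro x _
      have h1 : v x = Complex.exp (Complex.I * Complex.arg (v x)) := by
        have := Complex.norm_mul_exp_arg_mul_I (v x)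
        rw [hvn, Complex.ofReal_one, one_mul] at this
        rw [mul_comm]; exact this.symm
      have h2 : u x = Complex.exp (Complex.I * g x) * v x := by
        rw [hv]
        simp only
        rw [mul_comm (u x), ← mul_assoc, ← Complex.exp_add, add_neg_cancel, Complex.exp_zero, one_mul]
      rw [h2]
      nth_rewrite 1 [h1]
      rw [← Complex.exp_add]
      congr 1
      push_cast
      ring

/-- **Vietoris–Begle in degree one.** -/
theorem Ac.total {F C : Type} [TopologicalSpace F] [CompactSpace F] [T2Space F]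
    [TopologicalSpace C] [CompactSpace C] [T2Space C] {p : F → C} (hp : Good p) (hC : Ac C) :
    Ac F := by
  classical
  obtain ⟨hpc, hfib⟩ := hp
  have hfc : ∀ s : C, IsConnected (p ⁻¹' {s}) := fun s =>
    isConnected_iff_connectedSpace.2 (hfib s).1
  have hsurj : Function.Surjective p := by
    intro s
    obtain ⟨x, hx⟩ := (hfc s).nonempty
    exact ⟨x, hx⟩
  have hq := hpc.isClosedMap.isQuotientMap hpc hsurj
  have hCc : ConnectedSpace C := hC.1
  refine ⟨?_, ?_⟩
  · have := hq.isCoinducing.isConnected_preimage_of_isClosed hfc isClosed_univ isConnected_univ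
    rw [preimage_univ] at this
    exact connectedSpace_iff_univ.2 this
  · intro u hu hu1
    choose N hN hsN hNl using fun s => lift_local' p hpc u hu hu1 s
      ((hfib s).2 (fun x => u x) (hu.comp continuous_subtype_val) fun x => hu1 _)
    choose θ hθ hθu using hNl
    obtain ⟨P, hP⟩ := PartitionOfUnity.exists_isSubordinate (isClosed_univ (X := C)) N hN
      (fun s _ => mem_iUnion.2 ⟨s, hsN s⟩)
    let P' : PartitionOfUnity C F univ :=
      { toFun := fun i => (P i).comp ⟨p, hpc⟩
        locallyFinite' := by
          have h := P.locallyFinite.preimage_continuous hpc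
          exact h
        nonneg' := fun i x => P.nonneg i (p x)
        sum_eq_one' := fun x _ => P.sum_eq_one (mem_univ (p x))
        sum_le_one' := fun x => P.sum_le_one (p x) }
    have hP' : P'.IsSubordinate fun i => p ⁻¹' (N i) := by
      intro i
      have h1 : tsupport (P' i) ⊆ p ⁻¹' (tsupport (P i)) := by
        have h2 : Function.support (P' i) ⊆ p ⁻¹' (tsupport (P i)) := fun x hx =>
          subset_closure hx
        exact closure_minimal h2 ((isClosed_tsupport _).preimage hpc)
      exact h1.trans (preimage_mono (hP i))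
    have hηc : Continuous fun x => ∑ᶠ i, P' i x • θ i x :=
      hP'.continuous_finsum_smul (fun i => (hN i).preimage hpc) (fun i => hθ i)
    set η : F → ℝ := fun x => ∑ᶠ i, P' i x • θ i x with hη
    have hdiff : ∀ x y : F, p x = p y → η x - η y = θ (p x) x - θ (p x) y := by
      intro x y hxy
      have hfin : (Function.support fun i => P i (p x)).Finite := P.locallyFinite.point_finite (p x)
      have hx' : η x = ∑ᶠ i, P i (p x) * θ i x := rfl
      have hy' : η y = ∑ᶠ i, P i (p x) * θ i y := by
        rw [hxy]; rfl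
      rw [hx', hy', ← finsum_sub_distrib
        (hfin.subset fun i hi => fun h0 => hi (by simp [h0]))
        (hfin.subset fun i hi => fun h0 => hi (by simp [h0]))]
      have hterm : ∀ i, P i (p x) * θ i x - P i (p x) * θ i y =
          P i (p x) * (θ (p x) x - θ (p x) y) := by
        intro i
        rw [← mul_sub]
        by_cases h0 : P i (p x) = 0
        · rw [h0, zero_mul, zero_mul]
        · congr 1
          have hmem : p x ∈ N i := hP i (subset_closure h0)
          have hsub : p ⁻¹' {p x} ⊆ p ⁻¹' (N i) := by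
            intro z hz
            show p z ∈ N i
            rw [show p z = p x from hz]
            exact hmem
          have hsub' : p ⁻¹' {p x} ⊆ p ⁻¹' (N (p x)) := by
            intro z hz
            show p z ∈ N (p x)
            rw [show p z = p x from hz]
            exact hsN _
          refine lifts_differ (hfc (p x)).isPreconnected ((hθ i).mono hsub)
            ((hθ (p x)).mono hsub') ?_ rfl hxy.symm
          intro z hz
          rw [← hθu i z (hsub hz), ← hθu (p x) z (hsub' hz)]
      rw [finsum_congr hterm, ← finsum_mul, P.sum_eq_one (mem_univ _), one_mul]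
    set v : F → ℂ := fun x => u x * Complex.exp (-(Complex.I * η x)) with hv
    have hvc : Continuous v := by
      apply hu.mul
      apply Complex.continuous_exp.comp
      exact (continuous_const.mul (Complex.continuous_ofReal.comp hηc)).neg
    have hvn : ∀ x, ‖v x‖ = 1 := by
      intro x
      rw [hv]
      simp only
      rw [norm_mul, hu1, one_mul, Complex.norm_exp]
      simp
    have hvf : ∀ x y : F, p x = p y → v x = v y := by
      intro x y hxy
      have h1 : u x = Complex.exp (Complex.I * θ (p x) x) := hθu (p x) x (hsN _)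
      have h2 : u y = Complex.exp (Complex.I * θ (p x) y) :=
        hθu (p x) y (by show p y ∈ N (p x); rw [← hxy]; exact hsN _)
      have h3 := hdiff x y hxy
      show u x * Complex.exp (-(Complex.I * η x)) = u y * Complex.exp (-(Complex.I * η y))
      rw [h1, h2, ← Complex.exp_add, ← Complex.exp_add]
      congr 1
      have h4 : θ (p x) x - η x = θ (p x) y - η y := by linarith
      have h5 : ((θ (p x) x : ℂ) - η x) = θ (p x) y - η y := by exact_mod_cast h4
      linear_combination Complex.I * h5
    choose σ hσ using hsurj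
    have hvb : ∀ x, v (σ (p x)) = v x := fun x => hvf _ _ (hσ _)
    obtain ⟨τ, hτ, hτv⟩ := hC.2 (fun c => v (σ c))
      (hq.continuous_iff.2 (by
        have : (fun c => v (σ c)) ∘ p = v := funext hvb
        rw [this]; exact hvc))
      (fun c => hvn _)
    refine ⟨fun x => τ (p x) + η x, (hτ.comp hpc).add hηc, fun x => ?_⟩
    have h1 : v x = Complex.exp (Complex.I * τ (p x)) := by rw [← hvb x, hτv]
    have h2 : u x = v x * Complex.exp (Complex.I * η x) := by
      show u x = u x * Complex.exp (-(Complex.I * η x)) * Complex.exp (Complex.I * η x)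
      rw [mul_assoc, ← Complex.exp_add, neg_add_cancel, Complex.exp_zero, mul_one]
    rw [h2, h1, ← Complex.exp_add]
    congr 1
    push_cast
    ring

/-- Composition. -/
theorem Good.comp {W V Z : Type} [TopologicalSpace W] [CompactSpace W] [T2Space W]
    [TopologicalSpace V] [CompactSpace V] [T2Space V] [TopologicalSpace Z] [T2Space Z]
    {f : W → V} {h : V → Z} (hh : Good h) (hf : Good f) : Good (h ∘ f) := by
  refine ⟨hh.1.comp hf.1, fun z => ?_⟩
  have c1 : CompactSpace ↥((h ∘ f) ⁻¹' {z}) :=
    isCompact_iff_compactSpace.1 (isClosed_singleton.preimage (hh.1.comp hf.1)).isCompact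
  have c2 : CompactSpace ↥(h ⁻¹' {z}) :=
    isCompact_iff_compactSpace.1 (isClosed_singleton.preimage hh.1).isCompact
  let p : ↥((h ∘ f) ⁻¹' {z}) → ↥(h ⁻¹' {z}) := fun w => ⟨f w.1, w.2⟩
  have hpc : Continuous p := (hf.1.comp continuous_subtype_val).subtype_mk _
  refine Ac.total (p := p) ⟨hpc, fun c => ?_⟩ (hh.2 z)
  have e : ↥(f ⁻¹' {c.1}) ≃ₜ ↥(p ⁻¹' {c}) :=
    { toFun := fun w => ⟨⟨w.1, by
          show h (f w.1) = z
          rw [show f w.1 = c.1 from w.2]; exact c.2⟩, Subtype.ext w.2⟩
      invFun := fun w => ⟨w.1.1, congrArg Subtype.val w.2⟩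
      left_inv := fun w => rfl
      right_inv := fun w => rfl
      continuous_toFun := by fun_prop
      continuous_invFun := by fun_prop }
  exact (hf.2 c.1).of_homeo e

/-- Base change. -/
theorem Good.pullback {W₁ W₂ V : Type} [TopologicalSpace W₁] [TopologicalSpace W₂]
    [TopologicalSpace V] {g : W₁ → V} {f : W₂ → V} (hf : Good f) :
    Good (fun x : {x : W₁ × W₂ // g x.1 = f x.2} => x.1.1) := by
  refine ⟨by fun_prop, fun z => ?_⟩
  have e : ↥(f ⁻¹' {g z}) ≃ₜ
      ↥((fun x : {x : W₁ × W₂ // g x.1 = f x.2} => x.1.1) ⁻¹' {z}) :=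
    { toFun := fun w => ⟨⟨(z, w.1), (show f w.1 = g z from w.2).symm⟩, rfl⟩
      invFun := fun w => ⟨w.1.1.2, by
          have h1 : w.1.1.1 = z := w.2
          show f w.1.1.2 = g z
          rw [← w.1.2, h1]⟩
      left_inv := fun w => rfl
      right_inv := fun w => by
        apply Subtype.ext
        apply Subtype.ext
        apply Prod.ext
        · exact (show w.1.1.1 = z from w.2).symm
        · rfl
      continuous_toFun := by fun_prop
      continuous_invFun := by fun_prop }
  exact (hf.2 (g z)).of_homeo e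

end Pool.Agent.Y469.CB
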