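import Pool.Agent.Helper376.CL.Asm
import Pool.Agent.Y469.CB.VB

set_option autoImplicit false
set_option maxHeartbeats 4000000
set_option synthInstance.maxHeartbeats 400000

/-!
The equivalence relation generated by cell-like maps does not identify the two boundaries.
-/

namespace Pool.Agent.Y469.CB

open Pool.Agent.Helper376.CL
open Set Topology

/-- Two spaces which are images of one compact Hausdorff space under good maps. -/
def GoodSpan (Z₁ Z₂ : Type) [TopologicalSpace Z₁] [TopologicalSpace Z₂] : Prop :=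
  ∃ (W : Type) (_ : TopologicalSpace W) (_ : CompactSpace W) (_ : T2Space W)
    (f : W → Z₁) (g : W → Z₂), Good f ∧ Good g

theorem good_id (Z : Type) [TopologicalSpace Z] : Good (id : Z → Z) := by
  refine ⟨continuous_id, fun z => ?_⟩
  have : Unique ↥((id : Z → Z) ⁻¹' {z}) :=
    { default := ⟨z, rfl⟩, uniq := fun a => Subtype.ext a.2 }
  refine ⟨inferInstance, fun u hu hu1 => ⟨fun _ => Complex.arg (u default), continuous_const, ?_⟩⟩
  intro c
  rw [Unique.eq_default c]
  have := Complex.norm_mul_exp_arg_mul_I (u default)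
  rw [hu1, Complex.ofReal_one, one_mul] at this
  rw [mul_comm]; exact this.symm

theorem GoodSpan.trans {Z₁ Z₂ Z₃ : Type} [TopologicalSpace Z₁] [T2Space Z₁] [TopologicalSpace Z₂]
    [T2Space Z₂] [TopologicalSpace Z₃] [T2Space Z₃] (h : GoodSpan Z₁ Z₂) (h' : GoodSpan Z₂ Z₃) :
    GoodSpan Z₁ Z₃ := by
  obtain ⟨W, _, _, _, f, g, hf, hg⟩ := h
  obtain ⟨W', _, _, _, f', g', hf', hg'⟩ := h'
  have hcl : IsClosed {x : W × W' | g x.1 = f' x.2} :=
    isClosed_eq (hg.1.comp continuous_fst) (hf'.1.comp continuous_snd)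
  have hP : CompactSpace {x : W × W' // g x.1 = f' x.2} :=
    isCompact_iff_compactSpace.mp hcl.isCompact
  have hcl' : IsClosed {x : W' × W | f' x.1 = g x.2} :=
    isClosed_eq (hf'.1.comp continuous_fst) (hg.1.comp continuous_snd)
  have hP' : CompactSpace {x : W' × W // f' x.1 = g x.2} :=
    isCompact_iff_compactSpace.mp hcl'.isCompact
  let e : {x : W × W' // g x.1 = f' x.2} ≃ₜ {x : W' × W // f' x.1 = g x.2} :=
    { toFun := fun x => ⟨(x.1.2, x.1.1), x.2.symm⟩
      invFun := fun x => ⟨(x.1.2, x.1.1), x.2.symm⟩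
      left_inv := fun x => rfl
      right_inv := fun x => rfl
      continuous_toFun := by fun_prop
      continuous_invFun := by fun_prop }
  have h1 : Good (fun x : {x : W × W' // g x.1 = f' x.2} => x.1.1) := Good.pullback hf'
  have h2 : Good (fun x : {x : W' × W // f' x.1 = g x.2} => x.1.1) := Good.pullback hg
  have h3 : Good (fun x : {x : W × W' // g x.1 = f' x.2} => x.1.2) := by
    refine ⟨by fun_prop, fun z => ?_⟩
    refine (h2.2 z).of_homeo ?_
    exact
      { toFun := fun x => ⟨e.symm x.1, x.2⟩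
        invFun := fun x => ⟨e x.1, x.2⟩
        left_inv := fun x => rfl
        right_inv := fun x => rfl
        continuous_toFun := by fun_prop
        continuous_invFun := by fun_prop }
  exact ⟨{x : W × W' // g x.1 = f' x.2}, inferInstance, hP, inferInstance, f ∘ fun x => x.1.1,
    g' ∘ fun x => x.1.2, hf.comp h1, hg'.comp h3⟩

/-- The existence of a good map between two compact Hausdorff spaces. -/
def GoodMap (X Y : CompHaus.{0}) : Prop := ∃ f : X → Y, Good f

/-- The existence of a cell-like map between two compact Hausdorff spaces. -/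
def CellLikeMap (X Y : CompHaus.{0}) : Prop := ∃ f : X → Y, IsCellLike f

theorem goodSpan_of_eqvGen {X Y : CompHaus.{0}} (h : Relation.EqvGen GoodMap X Y) :
    GoodSpan X Y := by
  induction h with
  | rel x y h =>
    obtain ⟨f, hf⟩ := h
    exact ⟨x, inferInstance, inferInstance, inferInstance, id, f, good_id _, hf⟩
  | refl x =>
    exact ⟨x, inferInstance, inferInstance, inferInstance, id, id, good_id _, good_id _⟩
  | symm x y _ ih =>
    obtain ⟨W, a1, a2, a3, f, g, hf, hg⟩ := ih
    exact ⟨W, a1, a2, a3, g, f, hg, hf⟩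
  | trans x y z _ _ h1 h2 => exact h1.trans h2

theorem eqvGen_good_of_cellLike {X Y : CompHaus.{0}} (h : Relation.EqvGen CellLikeMap X Y) :
    Relation.EqvGen GoodMap X Y := by
  induction h with
  | rel x y h =>
    obtain ⟨f, hf⟩ := h
    exact Relation.EqvGen.rel _ _ ⟨f, Good.of_cellLike hf⟩
  | refl x => exact Relation.EqvGen.refl _
  | symm x y _ ih => exact Relation.EqvGen.symm _ _ ih
  | trans x y z _ _ h1 h2 => exact Relation.EqvGen.trans _ _ _ h1 h2

/-- If `Z₁` is path connected and `Z₂` has a circle valued function `r` which lifts properly over a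
proper nonempty open subset `S`, then `Z₁` and `Z₂` are not dominated by a common compactum through good maps. -/
theorem not_good_span {Z₁ Z₂ : Type} [TopologicalSpace Z₁] [T2Space Z₁]
    [TopologicalSpace Z₂] [T2Space Z₂] (h1 : PathConnectedSpace Z₁)
    (r : Z₂ → ℂ) (hr : Continuous r) (hr1 : ∀ z, ‖r z‖ = 1)
    (S : Set Z₂) (hS : IsOpen S) (hne : S.Nonempty) (hne' : Sᶜ.Nonempty)
    (θ : Z₂ → ℝ) (hθ : ContinuousOn θ S) (hrθ : ∀ z ∈ S, r z = Complex.exp (Complex.I * θ z))
    (hproper : ∀ C : ℝ, IsClosed {z | z ∈ S ∧ |θ z| ≤ C}) : ¬ GoodSpan Z₁ Z₂ := by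
  rintro ⟨W, _, _, _, f, g, hf, hg⟩
  obtain ⟨z0, hz0⟩ := hne
  obtain ⟨z1, hz1⟩ := hne'
  obtain ⟨⟨w0, hw0⟩⟩ := (hg.2 z0).1.toNonempty
  obtain ⟨⟨w1, hw1⟩⟩ := (hg.2 z1).1.toNonempty
  have hw0' : g w0 = z0 := hw0
  have hw1' : g w1 = z1 := hw1
  have γ : Path (f w0) (f w1) := (h1.joined (f w0) (f w1)).somePath
  let Γ : Type := {x : unitInterval × W // γ x.1 = f x.2}
  have hclosed : IsClosed {x : unitInterval × W | γ x.1 = f x.2} :=
    isClosed_eq (γ.continuous.comp continuous_fst) (hf.1.comp continuous_snd)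
  have : CompactSpace Γ := isCompact_iff_compactSpace.mp hclosed.isCompact
  have hval : Continuous (fun x : Γ => x.1) := continuous_subtype_val
  have hsnd : Continuous (fun x : Γ => x.1.2) := continuous_snd.comp hval
  have hgc : Continuous (fun x : Γ => g x.1.2) := hg.1.comp hsnd
  obtain ⟨⟨ϑ, hϑ, hϑu⟩, hΓ⟩ := lift_over_interval (Γ := Γ) (fun x => x.1.1) (continuous_fst.comp hval)
    (by
      intro s
      have : ConnectedSpace ↥(f ⁻¹' {γ s}) := (hf.2 (γ s)).1
      let j : ↥(f ⁻¹' {γ s}) → Γ := fun c => ⟨(s, c.1), (c.2 : f c.1 = γ s).symm⟩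
      have hj : Continuous j := by
        refine Continuous.subtype_mk ?_ _
        exact continuous_const.prodMk continuous_subtype_val
      have hrange : (fun x : Γ => x.1.1) ⁻¹' {s} = Set.range j := by
        ext x
        constructor
        · intro hx
          have hx' : x.1.1 = s := hx
          refine ⟨⟨x.1.2, ?_⟩, ?_⟩
          · show f x.1.2 = γ s
            rw [← hx']; exact x.2.symm
          · apply Subtype.ext
            apply Prod.ext
            · exact hx'.symm
            · rfl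
        · rintro ⟨c, rfl⟩
          rfl
      rw [hrange]
      exact isConnected_range hj)
    (fun x => r (g x.1.2)) (hr.comp hgc) (fun x => hr1 _)
    (by
      intro s
      obtain ⟨t, ht, ht2⟩ := (hf.2 (γ s)).2 (fun c => r (g c.1))
        (hr.comp (hg.1.comp continuous_subtype_val)) (fun c => hr1 _)
      have hmem : ∀ x : ↥((fun x : Γ => x.1.1) ⁻¹' {s}), x.1.1.2 ∈ f ⁻¹' {γ s} := by
        intro x
        show f x.1.1.2 = γ s
        have hx' : x.1.1.1 = s := x.2
        exact x.1.2.symm.trans (congrArg γ hx')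
      refine ⟨fun x => t ⟨x.1.1.2, hmem x⟩, ?_, fun x => ht2 ⟨x.1.1.2, hmem x⟩⟩
      refine ht.comp (Continuous.subtype_mk ?_ _)
      exact hsnd.comp continuous_subtype_val)
  let x0 : Γ := ⟨(0, w0), γ.source⟩
  let x1 : Γ := ⟨(1, w1), γ.target⟩
  obtain ⟨k, hk⟩ : ∃ k : ℤ, ϑ x0 - θ z0 = 2 * Real.pi * k := by
    apply exp_eq_int
    rw [← hϑu x0, ← hrθ z0 hz0]
    show r (g w0) = r z0
    rw [hw0']
  set ϑ' : Γ → ℝ := fun x => ϑ x - 2 * Real.pi * k with hϑ'
  have hϑ'c : Continuous ϑ' := hϑ.sub continuous_const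
  have hϑ'u : ∀ x : Γ, r (g x.1.2) = Complex.exp (Complex.I * ϑ' x) := by
    intro x
    rw [hϑu x, Complex.exp_eq_exp_iff_exists_int]
    refine ⟨k, ?_⟩
    simp only [hϑ']
    push_cast; ring
  have hint : ∀ x : Γ, g x.1.2 ∈ S → ∃ n : ℤ, ϑ' x - θ (g x.1.2) = 2 * Real.pi * n := by
    intro x hx
    apply exp_eq_int
    rw [← hϑ'u x, ← hrθ _ hx]
  obtain ⟨C, hC⟩ : ∃ C : ℝ, ∀ x : Γ, |ϑ' x| ≤ C := by
    obtain ⟨C, hC⟩ := (isCompact_range (hϑ'c.abs)).bddAbove
    exact ⟨C, fun x => hC ⟨x, rfl⟩⟩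
  set O : Set Γ := {x | g x.1.2 ∈ S} with hO
  have hOo : IsOpen O := hS.preimage hgc
  have hFc : ContinuousOn (fun x : Γ => ϑ' x - θ (g x.1.2)) O :=
    hϑ'c.continuousOn.sub (hθ.comp hgc.continuousOn (fun x hx => hx))
  set T : Set Γ := {x | g x.1.2 ∈ S ∧ ϑ' x = θ (g x.1.2)} with hT
  have hTo : IsOpen T := by
    have h2 : T = O ∩ (fun x : Γ => ϑ' x - θ (g x.1.2)) ⁻¹' Ioo (-1) 1 := by
      ext x
      constructor
      · rintro ⟨hx, hx2⟩
        refine ⟨hx, ?_⟩
        show ϑ' x - θ (g x.1.2) ∈ Ioo (-1 : ℝ) 1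
        rw [hx2, sub_self]; constructor <;> norm_num
      · rintro ⟨hx, hx2⟩
        refine ⟨hx, ?_⟩
        obtain ⟨n, hn⟩ := hint x hx
        have hx3 : ϑ' x - θ (g x.1.2) ∈ Ioo (-1 : ℝ) 1 := hx2
        rw [hn] at hx3
        have hpi := Real.pi_gt_three
        have hn0 : n = 0 := by
          have a1 : n < 1 := by
            by_contra hcon
            push Not at hcon
            have : (1 : ℝ) ≤ n := by exact_mod_cast hcon
            nlinarith [hx3.2]
          have a2 : -1 < n := by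
            by_contra hcon
            push Not at hcon
            have : (n : ℝ) ≤ -1 := by exact_mod_cast hcon
            nlinarith [hx3.1]
          omega
        rw [hn0] at hn
        simp at hn
        linarith
    rw [h2]
    exact hFc.isOpen_inter_preimage hOo isOpen_Ioo
  have hTc : IsClosed T := by
    set B : Set Γ := {x | g x.1.2 ∈ {z | z ∈ S ∧ |θ z| ≤ C}} with hB
    have hBc : IsClosed B := (hproper C).preimage hgc
    have hBO : B ⊆ O := fun x hx => hx.1
    have h2 : T = B ∩ (fun x : Γ => ϑ' x - θ (g x.1.2)) ⁻¹' {0} := by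
      ext x
      constructor
      · rintro ⟨hx, hx2⟩
        refine ⟨⟨hx, ?_⟩, ?_⟩
        · rw [← hx2]; exact hC x
        · show ϑ' x - θ (g x.1.2) = 0
          rw [hx2, sub_self]
      · rintro ⟨hx, hx2⟩
        have hx3 : ϑ' x - θ (g x.1.2) = 0 := hx2
        exact ⟨hx.1, by linarith⟩
    rw [h2]
    exact (hFc.mono hBO).preimage_isClosed_of_isClosed hBc isClosed_singleton
  have hx0T : x0 ∈ T := by
    refine ⟨?_, ?_⟩
    · show g w0 ∈ S
      rw [hw0']; exact hz0
    · show ϑ x0 - 2 * Real.pi * k = θ (g w0)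
      rw [hw0']; linarith
  have := hΓ
  have hTuniv : T = univ := IsClopen.eq_univ ⟨hTc, hTo⟩ ⟨x0, hx0T⟩
  have hx1T : x1 ∈ T := by rw [hTuniv]; exact mem_univ _
  have : g w1 ∈ S := hx1T.1
  rw [hw1'] at this
  exact hz1 this


/-- The two boundaries of the starting file are not even related by the equivalence relation
generated by good maps. -/
theorem boundaries : ∃ Z₁ Z₂ : CompHaus.{0},
    IsZBoundary (FreeGroup (Fin 2) × Multiplicative ℤ) Z₁ ∧
    IsZBoundary (FreeGroup (Fin 2) × Multiplicative ℤ) Z₂ ∧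
    ¬ Relation.EqvGen GoodMap Z₁ Z₂ := by
  obtain ⟨r, S, θ, hr, hr1, hS, hne, hne', hθ, hrθ, hproper⟩ := spiral_bd1
  have c (w : ℝ) : CompactSpace ↥((XF w)ᶜ) := by
    have : CompactSpace ↥(XS w) := isCompact_iff_compactSpace.1 (isCompact_XS w)
    exact isCompact_iff_compactSpace.1 (isOpen_XF w).isClosed_compl.isCompact
  have c0 := c 0
  have c1 := c 1
  refine ⟨CompHaus.of ↥((XF 0)ᶜ), CompHaus.of ↥((XF 1)ᶜ), isZBoundary_XF (by simp),
    isZBoundary_XF (by simp), fun h => ?_⟩
  exact not_good_span pathConnected_bd0 r hr hr1 S hS hne hne' θ hθ hrθ hproper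
    (goodSpan_of_eqvGen h)

end Pool.Agent.Y469.CB
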